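import Pool.Agent.N567.MD.MainJ

/-!
# Homologically trivial cycles and the cohomology group `H^(2j-1)`

Let `𝒱` be a class of varieties which satisfy the standard conjecture of Lefschetz type, closed under
products and smooth complete intersections, for example the class of all smooth projective varieties
over the algebraic numbers, if this conjecture holds (the hypotheses used here, `IsLefschetzClass`
and `HasSections`, are consequences).

One expects that over the algebraic numbers the homologically trivial cycles of codimension `j` on
`X` vanish if `H^(2j-1)(X) = 0`, more generally that they depend (functorially, for correspondences)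
only on `H^(2j-1)(X)`. It is shown that this general statement is equivalent to the statement for
direct summands of motives of varieties, and to the nilpotence of the action of correspondences
killing `H^(2j-1)` in the middle dimension `2 j - 1`. Moreover it is equivalent to the vanishing of
the products of homologically trivial cycles, together with Murre's conjecture (D).

The idea of the last equivalence: if products of homologically trivial cycles vanish, homologically
trivial correspondences act as zero on homologically trivial cycles, and there are Chow-Kunneth
decompositions. A homologically trivial cycle of dimension `l` on a variety of dimension `a > 2 l + 1`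
comes from a variety of dimension `2 l + 1`, where by induction it has weight at least `2 l + 1`. The
push-forward of such a class has weight greater than `a`, up to homologically trivial correspondences.
-/

set_option autoImplicit false

universe u v w

namespace Pool.Agent.Results.MP_32dfd1_ag.DependenceOnOddCohomology

open Pool.Agent.H914 Pool.Agent.N164.Prim Pool.Agent.N567.Mid
open Pool.Agent.W492.BB (TheoryData WeilTheoryData)

/-- Let `𝒱` be a Lefschetz class of varieties with enough sections (with Chow groups `C` and a Weil
cohomology `H`) which contains a curve. The following are equivalent: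

* correspondences which act as zero on `H^(2j-1)(X)` act as zero on the homologically trivial
  classes in `CH^j(X)`, for all `X` in `𝒱` and all `j`;
* for arbitrarily large `j` every variety `X` of dimension `2 j - 1` is covered by a variety `X'` of
  dimension `2 j' - 1` such that the self-correspondences acting as zero on `H^(2j'-1)(X')` act
  nilpotently on the homologically trivial classes in `CH^(j')(X')`;
* for arbitrarily large `j` every variety `X` of dimension `2 j - 1` is covered by a variety `X'` of
  dimension `2 j' - 1` with finite-dimensional motive, one of whose Chow-Kunneth decompositions has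
  the property that `π b`, `b ≠ 2 j' - 1`, acts as zero on the homologically trivial classes in
  `CH^(j')(X')`;
* all varieties in `𝒱` have Chow-Kunneth decompositions, and the homologically trivial classes in
  `CH^j(M)` vanish for all the direct summands `M` of their motives with `H^(2j-1)(M) = 0`;
* products of homologically trivial classes vanish, and all varieties in `𝒱` have Chow-Kunneth
  decompositions and satisfy Murre's conjecture (D);
* products of homologically trivial classes vanish, and for arbitrarily large `j` every variety `X`
  of dimension `2 j` is covered by a variety `X'` of dimension `2 j'` such that the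
  self-correspondences acting as zero on `H^m(X')` for all `m < 2 j'` act nilpotently on the
  homologically trivial classes in `CH^(j')(X')`.

If this is the case, all the homologically trivial classes in `CH^j(X)` vanish for all `X` in `𝒱` with
`H^(2j-1)(X) = 0`. -/
theorem result {k : Type u} [Field k] {𝒱 : VarClass k} {C : TheoryData.{u, v, 0} 𝒱 ℚ}
    [IsChowTheory C] {K : Type w} [Field K] {H : WeilTheoryData.{u, v, w} C K} [IsWeilTheory H]
    (hg : IsGradedCommutative H) (hL : IsLefschetzClass H) (hS : HasSections H) {T : 𝒱.Obj}
    (hT : T.dim = 1) :
    List.TFAE [DependsOn H (fun j m => m = 2 * j - 1),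
      ∀ e : ℕ, ∃ j, e ≤ j ∧ ∀ X : 𝒱.Obj, X.dim + 1 = 2 * j →
        ∃ (X' : 𝒱.Obj) (j' : ℕ), Covers C X' X ∧ X'.dim + 1 = 2 * j' ∧ NilpotentOdd H X' j',
      ∀ e : ℕ, ∃ j, e ≤ j ∧ ∀ X : 𝒱.Obj, X.dim + 1 = 2 * j →
        ∃ (X' : 𝒱.Obj) (j' : ℕ), Covers C X' X ∧ X'.dim + 1 = 2 * j' ∧ IsKimuraFinite C X' ∧
          HasGoodOdd H X' j',
      ∀ X : 𝒱.Obj, HasCK H X ∧ ∀ j : ℕ, SummandsOdd H X j,
      ProductsVanish H ∧ ∀ X : 𝒱.Obj, HasCK H X ∧ ∀ j : ℕ, MurreD H X j,
      ProductsVanish H ∧ ∀ e : ℕ, ∃ j, e ≤ j ∧ ∀ X : 𝒱.Obj, X.dim = 2 * j →
        ∃ (X' : 𝒱.Obj) (j' : ℕ), Covers C X' X ∧ X'.dim = 2 * j' ∧ NilpotentOnHom H X' j'] ∧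
    (DependsOn H (fun j m => m = 2 * j - 1) → ∀ (X : 𝒱.Obj) (j : ℕ),
      (∀ a : H.A X, H.Deg (2 * j - 1) a → a = zero H.toTheoryData X) →
        ∀ z : C.A X, HomTriv H j z → z = zero C X) :=
  mainJ inferInstance inferInstance hg hL hS hT

end Pool.Agent.Results.MP_32dfd1_ag.DependenceOnOddCohomology
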